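import Pool.Agent.Lib_MP_dcbbce_an.Final

/-!
# A bounded planar domain without maximal seminorms

We exhibit a bounded domain `Ω` in the plane such that, for all sufficiently large `q`, the
supremum of `F_{q,Ω}(H) = λ_H(Ω) T_H(Ω)^q` over all seminorms `H` with `‖H‖ = 1` is finite and is
not attained.
-/

open MeasureTheory

namespace Pool.Agent.Results.MP_dcbbce_an.NoMaximizer

open MPdcbbce

/-- There is a bounded domain `Ω ⊂ ℝ²` such that for all large `q` the supremum of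
`F_{q,Ω}` over the class `𝕊` is not attained. (The third line records that for each `H ∈ 𝕊`
the quotients defining `T_H(Ω)` have positive denominators and that `T_H(Ω)` is finite.) -/
theorem result :
    ∃ Ω : Set (EuclideanSpace ℝ (Fin 2)),
      IsOpen Ω ∧ IsConnected Ω ∧ Bornology.IsBounded Ω ∧
      (∀ H : Seminorm ℝ (EuclideanSpace ℝ (Fin 2)), InS H →
        (∀ (u : EuclideanSpace ℝ (Fin 2) → ℝ)
          (g : EuclideanSpace ℝ (Fin 2) → EuclideanSpace ℝ (Fin 2)), IsH10 Ω u g →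
          (∫ x in Ω, u x ^ 2) ≠ 0 → 0 < ∫ x in Ω, H (g x) ^ 2) ∧
        (torQuot Ω H).Nonempty ∧ BddAbove (torQuot Ω H)) ∧
      ∃ q₀ : ℝ, 0 < q₀ ∧ ∀ q : ℝ, q₀ ≤ q → ∃ M : ℝ,
        IsLUB {r : ℝ | ∃ H : Seminorm ℝ (EuclideanSpace ℝ (Fin 2)), InS H ∧ r = Fq q Ω H} M ∧
        ∀ H : Seminorm ℝ (EuclideanSpace ℝ (Fin 2)), InS H → Fq q Ω H < M := by
  obtain ⟨C, hC⟩ := exists_isCut
  refine ⟨Om C, Om_open hC, Om_connected hC, Om_bounded, ?_, main hC⟩
  intro H hH
  refine ⟨?_, (quot_nonempty hC H).2, torQuot_bdd hC hH⟩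
  intro u g hu hne
  have hpos : 0 < ∫ x in Om C, u x ^ 2 :=
    lt_of_le_of_ne (integral_nonneg fun _ => sq_nonneg _) (Ne.symm hne)
  have := poincare hH hu
  linarith

end Pool.Agent.Results.MP_dcbbce_an.NoMaximizer
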